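import Pool.Agent.K7.H7.TB.Main
import Pool.Agent.K7.H8.TB_MEAS
import Pool.Agent.K7.H8.TB_NORM
import Pool.Agent.K7.H26.TB_KN
import Pool.Agent.K7.H26.TB_LIP
import Pool.Agent.K7.H60.TB_DIM
import Pool.Agent.K7.H60.TB_GAP

/-!
# Five measures on `ℝ³` which no regular torus bisects

A regular torus is a set `T(S, α) = {x : dist(x, S) ≤ α}`, where `S` is a flat circle of radius `r ≥ 0` (points are
allowed) and `α > 0`. The question is whether any five finite absolutely continuous measures on `ℝ³` can be bisected
simultaneously by a regular torus.

**Theorem.** There are five finite measures on `ℝ³`, absolutely continuous with respect to the Lebesgue measure and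
invariant under all rotations and reflections which fix the origin, such that no regular torus contains exactly
half of each of them.

The measures are mixtures of the uniform measures on the balls `B(0, j + 1)`, with almost arbitrary coefficients
`c j / (j + 1) ^ 5`, `1 ≤ c j ≤ 2`.

Remark. The half-spaces whose boundary contains the origin bisect all these measures. They are limits of balls and of
regular tori, but they are not regular tori. If half-spaces are admitted, the question remains open. The same
remark applies to four measures and balls: four of these measures are bisected by half-spaces, and the theorem of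
Stone and Tukey gives a ball or a half-space.

The proof. Up to a rotation, which does not change the measures, a regular torus is given by four real
parameters `p`: the position of the centre of the circle in a half-plane, and the radii. Let `b j p` be the volume
of the part of the torus in `B(0, j + 1)` minus half the volume of this ball. The torus bisects the measure with the
coefficients `c` if and only if `∑ c j b j p / (j + 1) ^ 5 = 0`. By Kneser's inequality
`vol T(S, k α) ≤ k³ vol T(S, α)` for `k ≥ 1`, `b j` is a Lipschitz function on the compact set `Q n` of the parameters of
size at most `n` with `α ≥ 1 / (n + 1)`, and for some `j` it has no zero there, because the torus is too small. So the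
five coefficients `c j` of five measures which are bisected by a torus with parameters in `Q n` are given, in terms
of the other coefficients, by a Lipschitz map of `Q n ⊂ ℝ⁴` to `ℝ⁵`; its image has no interior points. Therefore the
five-tuples of coefficients which admit a bisecting torus with parameters in `Q n` form a closed set without
interior points, and the theorem of Baire can be applied to the compact space of all coefficients.

Team project of helper7 (plan, Baire argument), helper8, helper26 and helper60.
-/

set_option autoImplicit false

open MeasureTheory Metric Set

namespace Pool.Agent.Results.MP_1a3145_co.RadialMeasures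

/-- the space `ℝ³` -/
abbrev Space : Type := EuclideanSpace ℝ (Fin 3)

/-- flat circles `{c + r (cos t u + sin t w)}`, where `u`, `w` are orthonormal and `r ≥ 0` -/
def FlatCircle (S : Set Space) : Prop :=
  ∃ (c u w : Space) (r : ℝ), ‖u‖ = 1 ∧ ‖w‖ = 1 ∧ inner ℝ u w = 0 ∧ 0 ≤ r ∧
    S = {x | ∃ t : ℝ, x = c + r • (Real.cos t • u + Real.sin t • w)}

/-- regular tori: the points at distance at most `α > 0` from a flat circle -/
def RegularTorus (T : Set Space) : Prop :=
  ∃ (S : Set Space) (α : ℝ), FlatCircle S ∧ 0 < α ∧ T = {x | infDist x S ≤ α}

/-- There are five finite absolutely continuous measures on `ℝ³`, invariant under all linear isometries, such that no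
regular torus contains exactly half of each of them. -/
theorem result : ∃ μ : Fin 5 → Measure Space,
    (∀ i, IsFiniteMeasure (μ i) ∧ μ i ≪ volume ∧
      ∀ (L : Space ≃ₗᵢ[ℝ] Space) (A : Set Space), μ i (L '' A) = μ i A) ∧
    ∀ T : Set Space, RegularTorus T → ∃ i, μ i T ≠ μ i univ / 2 := by
  obtain ⟨μ, h1, h2⟩ := K7.H7.TB.main' K7.H8.TBNORM.t (K7.H26.TBLIP.t K7.H26.TBKN.t) K7.H60.TBGAP.t
    K7.H60.TBDIM.t K7.H8.TBMEAS.t
  refine ⟨μ, h1, fun T hT => ?_⟩
  obtain ⟨i, hi⟩ := h2 T hT
  refine ⟨i, fun h => hi ?_⟩
  rw [h]
  exact ENNReal.mul_div_cancel (by norm_num) (by norm_num)

end Pool.Agent.Results.MP_1a3145_co.RadialMeasures
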